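import Mathlib
import Pool.Agent.H151.PN4

/-!
Separable closed subspaces of `C_p(X)` and perfect normality of `L_p(X)`.
-/

set_option autoImplicit false

open Set Topology

namespace Pool.Agent.Results.MP_f50f0f_gt.ZeroDimPowers

open Pool.Agent.H151.PN
open Pool.Agent.Helper937.Szd (CS Cp)

/-- perfectly normal: normal, and closed sets are `G_δ` -/
def PerfNormal (E : Type) [TopologicalSpace E] : Prop :=
  NormalSpace E ∧ ∀ s : Set E, IsClosed s → IsGδ s

/-- `L_p(X)` as in the frozen statement of the problem -/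
abbrev Lp (X : Type) [TopologicalSpace X] : Type :=
  ↥(Set.range (fun a : X →₀ ℝ => fun f : C(X, ℝ) => a.sum (fun x r => r * f x)))

theorem lp_embedding (X : Type) [TopologicalSpace X] :
    ∃ e : Lp X → Cp (Cp X), IsInducing e := by
  have hc : ∀ φ : Lp X, Continuous fun f : Cp X => φ.1 ⟨f.1, f.2⟩ := by
    rintro ⟨_, a, rfl⟩
    show Continuous fun f : Cp X => a.sum (fun x r => r * f.1 x)
    unfold Finsupp.sum
    exact continuous_finsetSum _ fun x _ => continuous_const.mul
      ((continuous_apply x).comp continuous_subtype_val)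
  refine ⟨fun φ => ⟨fun f => φ.1 ⟨f.1, f.2⟩, hc φ⟩, ?_⟩
  refine IsInducing.of_comp (g := fun (ψ : Cp (Cp X)) (f : C(X, ℝ)) => ψ.1 ⟨f.1, f.2⟩) ?_ ?_ ?_
  · refine Continuous.subtype_mk (continuous_pi fun f => ?_) _
    exact (continuous_apply (⟨f.1, f.2⟩ : C(X, ℝ))).comp continuous_subtype_val
  · refine continuous_pi fun f => ?_
    exact (continuous_apply (⟨f.1, f.2⟩ : Cp X)).comp continuous_subtype_val
  · exact IsInducing.subtypeVal

/-- Let `X` be a Tychonoff space.

(1) `C_p(C_p(X))` is perfectly normal if and only if all closed subspaces of all finite powers of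
`C_p(X)` are separable; in this case `L_p(X)` is perfectly normal.

(2) If `X` is strongly zero-dimensional and all closed subspaces of `C_p(X)` are separable, then
`L_p(X)` and `C_p(C_p(X))` are perfectly normal. -/
theorem result :
    ∀ (X : Type) [TopologicalSpace X] [T35Space X],
      ((PerfNormal {g : {f : X → ℝ // Continuous f} → ℝ // Continuous g} ↔
          ∀ (n : ℕ) (S : Set (Fin n → {f : X → ℝ // Continuous f})), IsClosed S →
            TopologicalSpace.SeparableSpace S) ∧
        ((∀ (n : ℕ) (S : Set (Fin n → {f : X → ℝ // Continuous f})), IsClosed S →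
            TopologicalSpace.SeparableSpace S) → PerfNormal (Lp X))) ∧
      ((∀ f : X → ℝ, Continuous f → ∀ a b : ℝ, a < b →
          ∃ C : Set X, IsClopen C ∧ {x | f x ≤ a} ⊆ C ∧ C ⊆ {x | f x < b}) →
        (∀ S : Set {f : X → ℝ // Continuous f}, IsClosed S → TopologicalSpace.SeparableSpace S) →
        PerfNormal (Lp X) ∧ PerfNormal {g : {f : X → ℝ // Continuous f} → ℝ // Continuous g}) := by
  intro X _ _
  have hmain : (∀ n, CS (Fin n → Cp X)) → PN (Cp (Cp X)) := by
    intro h
    refine pn_of_cs Unit h (fun φ _ => φ) ?_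
    refine IsInducing.of_comp (g := fun (u : Unit → Cp (Cp X)) => u ()) ?_ ?_ ?_
    · exact continuous_pi fun _ => continuous_id
    · exact continuous_apply _
    · exact IsInducing.id
  have hL : PN (Cp (Cp X)) → PN (Lp X) := by
    intro h
    obtain ⟨e, he⟩ := lp_embedding X
    exact PN.of_embedding h e he
  refine ⟨⟨⟨fun h n => cs_cp_of_pn h n, fun h => hmain h⟩, fun h => hL (hmain h)⟩, fun hz h => ?_⟩
  have hne : Nonempty (Cp X) := ⟨⟨fun _ => 0, continuous_const⟩⟩
  have hCS : ∀ n, CS (Fin n → Cp X) := by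
    intro n
    obtain ⟨R, hR, hRs⟩ := Helper937.Szd.exists_power (Helper937.Szd.exists_square X hz) n
    exact CS.image (Z := Cp X) h R hR hRs
  exact ⟨hL (hmain hCS), hmain hCS⟩

end Pool.Agent.Results.MP_f50f0f_gt.ZeroDimPowers
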